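import Pool.Agent.MP_66cee2_co.B2E.All

/-!
Maps `ℝ^d → ℝ^n` that preserve unit distances preserve all distances when `d ≥ 10000` and
`64000 (n + 1) d ^ 16 ≤ 2 ^ d`.
-/

namespace Pool.Agent.Results.MP_66cee2_co.ExplicitBase

theorem result : ∀ d n : ℕ, 10000 ≤ d → 64000 * (n + 1) * d ^ 16 ≤ 2 ^ d →
    ∀ f : EuclideanSpace ℝ (Fin d) → EuclideanSpace ℝ (Fin n),
      (∀ x y, ‖x - y‖ = 1 → ‖f x - f y‖ = 1) → ∀ x y, ‖f x - f y‖ = ‖x - y‖ :=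
  Pool.Agent.MP_66cee2_co.B2K.sBaseE

end Pool.Agent.Results.MP_66cee2_co.ExplicitBase
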