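import Pool.Agent.MP_66cee2_co.H23U.Sharp

/-!
For all `d ≥ 1` and all `n ≥ 200 d ^ 3 (3 √3 / 2) ^ d` there is a map `ℝ^d → ℝ^n` that preserves
unit distances but does not preserve all distances.
-/

namespace Pool.Agent.Results.MP_66cee2_co.UpperBase

theorem result : ∀ d n : ℕ, 1 ≤ d → 200 * (d : ℝ) ^ 3 * (3 * √3 / 2) ^ d ≤ n →
    ∃ f : EuclideanSpace ℝ (Fin d) → EuclideanSpace ℝ (Fin n),
      (∀ x y, ‖x - y‖ = 1 → ‖f x - f y‖ = 1) ∧ ∃ x y, ‖f x - f y‖ ≠ ‖x - y‖ :=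
  Pool.Agent.MP_66cee2_co.H23U.upper

end Pool.Agent.Results.MP_66cee2_co.UpperBase
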